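import Pool.Agent.W821.TH.Final
import Pool.Agent.TH908.KH.Cases
import Pool.Agent.H276R3.Grace
import Pool.Agent.H276R3.GE

/-!
# The smallest graceful tree containing a tree with dominating vertices or leafy hubs: `γ(T) = |E(T)|`

(1) Let `T` be a finite tree with `m` edges, `v` a vertex and `t` the number of vertices other than `v` which
are not adjacent to `v`.  If `10^8 (t + 1)^2 log (t + 2) ≤ m`, or if all vertices have distance at most `h`
from `v` and `2 ^ h h (4 t + 1) ≤ m`, then `T` is graceful, so it is itself the smallest graceful tree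
containing it.  (2), (3) The same holds if `T` has a set `S` of at least two and at most `k` vertices (hubs)
each of which is adjacent to at least `D(k) (r + 1)` leaves, where `r` is the number of the vertices which are
neither hubs nor leaves adjacent to hubs; for two hubs it is sufficient that each of them is adjacent to at
least `max r 1` leaves and that `T` has at least `128 (r + 3)` edges.  The shape of the tree which remains if
the leaves of the hubs are deleted is arbitrary.
-/

set_option autoImplicit false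

namespace Pool.Agent.Results.MP_128071_co.DominatingHubs

/-- A graph with `m` edges is graceful if there is an injective map `f` of the vertices to
`{0, 1, …, m}` such that the edge labels `|f u - f v|` are exactly `1, …, m`. -/
def Graceful {V : Type} (T : SimpleGraph V) : Prop :=
  ∃ f : V → ℕ, Function.Injective f ∧ (∀ v, f v ≤ T.edgeSet.ncard) ∧
    {d : ℕ | ∃ u v : V, T.Adj u v ∧ d = Int.natAbs ((f u : ℤ) - (f v : ℤ))} =
      Set.Icc 1 T.edgeSet.ncard

/-- The numbers of edges of the finite graceful trees which have a subgraph isomorphic to `T`. -/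
def gracefulSizes {V : Type} (T : SimpleGraph V) : Set ℕ :=
  {k | ∃ (W : Type) (_ : Fintype W) (T' : SimpleGraph W),
    T'.IsTree ∧ Graceful T' ∧ T.IsContained T' ∧ T'.edgeSet.ncard = k}

/-- `γ(T)`: the least number of edges of a graceful tree which has a subgraph isomorphic to `T`. -/
noncomputable def gamma {V : Type} (T : SimpleGraph V) : ℕ := sInf (gracefulSizes T)

theorem le_of_mem {V : Type} {T : SimpleGraph V} {k : ℕ}
    (hk : k ∈ gracefulSizes T) : T.edgeSet.ncard ≤ k := by
  classical
  obtain ⟨W, _, T', _, _, ⟨φ⟩, rfl⟩ := hk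
  have hinj : Function.Injective φ := φ.injective
  have h1 : Sym2.map φ '' T.edgeSet ⊆ T'.edgeSet := by
    rintro _ ⟨e, he, rfl⟩
    induction e using Sym2.ind with
    | _ x y =>
      rw [Sym2.map_mk, SimpleGraph.mem_edgeSet]
      exact φ.toHom.map_adj ((SimpleGraph.mem_edgeSet T).1 he)
  calc T.edgeSet.ncard = (Sym2.map φ '' T.edgeSet).ncard :=
        (Set.ncard_image_of_injective _ (Sym2.map.injective hinj)).symm
    _ ≤ T'.edgeSet.ncard := Set.ncard_le_ncard h1 (Set.toFinite _)

/-- The leaves adjacent to `v`. -/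
def leavesAt {V : Type} (T : SimpleGraph V) (v : V) : Set V :=
  {w : V | T.Adj v w ∧ (T.neighborSet w).ncard = 1}

/-- The vertices which are not in `S` and are not leaves adjacent to a vertex of `S`. -/
def rest {V : Type} (T : SimpleGraph V) (S : Set V) : Set V :=
  {x : V | x ∉ S ∧ ∀ i ∈ S, x ∉ leavesAt T i}

theorem uniq {V : Type} {T : SimpleGraph V} {v x y : V} (h : x ∈ leavesAt T v) (hy : T.Adj x y) :
    y = v := by
  obtain ⟨h1, h2⟩ := h
  obtain ⟨a, ha⟩ := Set.ncard_eq_one.1 h2
  have e1 : y ∈ T.neighborSet x := hy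
  have e2 : v ∈ T.neighborSet x := h1.symm
  rw [ha] at e1 e2
  rw [Set.mem_singleton_iff] at e1 e2
  rw [e1, e2]

theorem many {V : Type} [Fintype V] {T : SimpleGraph V} {v x : V} (h : x ∉ leavesAt T v)
    (hx : T.Adj v x) : ∃ y, y ≠ v ∧ T.Adj x y := by
  by_contra hcon
  push Not at hcon
  apply h
  refine ⟨hx, ?_⟩
  rw [Set.ncard_eq_one]
  refine ⟨v, ?_⟩
  ext y
  rw [Set.mem_singleton_iff]
  constructor
  · intro hy
    by_contra hne
    exact hcon y hne hy
  · rintro rfl
    exact hx.symm

/-- A vertex adjacent to a leaf is no leaf, if there are at least two edges. -/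
theorem not_leaf {V : Type} [Fintype V] {T : SimpleGraph V} (hT : T.IsTree)
    (hm : 2 ≤ T.edgeSet.ncard) {v w x : V} (hx : x ∈ leavesAt T v) : v ∉ leavesAt T w := by
  classical
  intro hv
  have h1 : x = w := uniq hv hx.1
  subst h1
  -- all vertices are `v` or `x`
  have hall : ∀ n z, T.dist v z = n → z = v ∨ z = x := by
    intro n
    induction n with
    | zero =>
      intro z hz
      rw [(hT.connected v z).dist_eq_zero_iff] at hz
      exact Or.inl hz.symm
    | succ n ih =>
      intro z hz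
      by_cases hzv : z = v
      · exact Or.inl hzv
      obtain ⟨par, hp1, hp2⟩ := Pool.Agent.H115R2.exists_parent T hT v
      have h3 := hp1 z hzv
      rcases ih (par z) (by omega) with h4 | h4
      · rw [h4] at h3
        exact Or.inr (uniq hv h3.1)
      · rw [h4] at h3
        exact Or.inl (uniq hx h3.1)
  have hc : Fintype.card V ≤ 2 := by
    rw [← Finset.card_univ]
    have : (Finset.univ : Finset V) ⊆ {v, x} := by
      intro z _
      rw [Finset.mem_insert, Finset.mem_singleton]
      exact hall _ z rfl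
    exact (Finset.card_le_card this).trans Finset.card_le_two
  have := Pool.Agent.H115R2.ncard_edge T hT
  omega

theorem card_fin {V : Type} [Fintype V] (A : Set V) [DecidablePred (· ∈ A)] :
    (Finset.univ.filter (· ∈ A)).card = A.ncard := by
  rw [← Set.ncard_coe_finset]
  congr 1
  ext x
  simp

theorem two_aux {V : Type} [Fintype V] {T : SimpleGraph V} (hT : T.IsTree) {v w : V} (hvw : v ≠ w)
    {r : ℕ} (hr : (rest T {v, w}).ncard = r) (h1v : 1 ≤ (leavesAt T v).ncard)
    (h1w : 1 ≤ (leavesAt T w).ncard)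
    (hw : r ≤ (leavesAt T w).ncard) (hle : (leavesAt T w).ncard ≤ (leavesAt T v).ncard)
    (hm : 128 * (r + 3) ≤ T.edgeSet.ncard) : Graceful T := by
  classical
  obtain ⟨R, hR⟩ : ∃ R, R = Finset.univ.filter (· ∈ rest T {v, w}) := ⟨_, rfl⟩
  obtain ⟨Lv, hLv⟩ : ∃ R, R = Finset.univ.filter (· ∈ leavesAt T v) := ⟨_, rfl⟩
  obtain ⟨Lw, hLw⟩ : ∃ R, R = Finset.univ.filter (· ∈ leavesAt T w) := ⟨_, rfl⟩
  have hRm : ∀ x, x ∈ R ↔ x ∈ rest T {v, w} := by intro x; simp [hR]
  have hLvm : ∀ x, x ∈ Lv ↔ x ∈ leavesAt T v := by intro x; simp [hLv]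
  have hLwm : ∀ x, x ∈ Lw ↔ x ∈ leavesAt T w := by intro x; simp [hLw]
  have cR : R.card = r := by rw [hR, card_fin, hr]
  have cLv : Lv.card = (leavesAt T v).ncard := by rw [hLv, card_fin]
  have cLw : Lw.card = (leavesAt T w).ncard := by rw [hLw, card_fin]
  have hrest : ∀ x, x ∈ R ↔ (x ≠ v ∧ x ≠ w ∧ x ∉ Lv ∧ x ∉ Lw) := by
    intro x
    rw [hRm, hLvm, hLwm]
    simp only [rest, Set.mem_setOf_eq, Set.mem_insert_iff, Set.mem_singleton_iff, not_or,
      forall_eq_or_imp, forall_eq]
    tauto
  obtain ⟨a, ha⟩ : (leavesAt T v).Nonempty := by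
    rw [← Set.ncard_pos (Set.toFinite _)]
    omega
  obtain ⟨b, hb⟩ : (leavesAt T w).Nonempty := by
    rw [← Set.ncard_pos (Set.toFinite _)]
    omega
  have hm2 : 2 ≤ T.edgeSet.ncard := by omega
  have C : Pool.Agent.W821.TH.Cfg T v w R Lv Lw := by
    refine ⟨hvw, ?_, ?_, ?_, ?_, ?_, ?_, ?_⟩
    · intro x
      rw [hrest]
      tauto
    · intro x hx
      exact (hrest x).1 hx
    · rw [Finset.disjoint_left]
      intro x hx hx'
      rw [hLvm] at hx
      rw [hLwm] at hx'
      exact hvw (uniq hx' hx.1.symm)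
    · rw [hLvm, hLwm]
      exact ⟨not_leaf hT hm2 ha, not_leaf hT hm2 ha⟩
    · rw [hLvm, hLwm]
      exact ⟨not_leaf hT hm2 hb, not_leaf hT hm2 hb⟩
    · intro x hx
      rw [hLvm] at hx
      exact ⟨hx.1, fun y hy => uniq hx hy⟩
    · intro x hx
      rw [hLwm] at hx
      exact ⟨hx.1, fun y hy => uniq hx hy⟩
  by_cases hadj : T.Adj v w
  · exact Pool.Agent.W821.TH.main_adj hT C hadj (by omega) (by omega) (by omega)
  · refine Pool.Agent.W821.TH.main_far hT C hadj ?_ ?_ (by omega) (by omega) (by omega)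
    · intro x hx hvx
      refine many (fun h => ?_) hvx
      exact ((hrest x).1 hx).2.2.1 ((hLvm x).2 h)
    · intro x hx hwx
      refine many (fun h => ?_) hwx
      exact ((hrest x).1 hx).2.2.2 ((hLwm x).2 h)

theorem two {V : Type} [Fintype V] {T : SimpleGraph V} (hT : T.IsTree) {v w : V} (hvw : v ≠ w)
    {r : ℕ} (hr : (rest T {v, w}).ncard = r) (hv : max r 1 ≤ (leavesAt T v).ncard)
    (hw : max r 1 ≤ (leavesAt T w).ncard)
    (hm : 128 * (r + 3) ≤ T.edgeSet.ncard) : Graceful T := by
  rcases le_total (leavesAt T w).ncard (leavesAt T v).ncard with h | h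
  · exact two_aux hT hvw hr (by omega) (by omega) (by omega) h hm
  · refine two_aux hT hvw.symm (r := r) ?_ (by omega) (by omega) (by omega) h hm
    rw [Set.pair_comm]
    exact hr

theorem hubs (k : ℕ) : ∃ D : ℕ, ∀ (V : Type) [Fintype V] (T : SimpleGraph V), T.IsTree →
    ∀ S : Set V, 2 ≤ S.ncard → S.ncard ≤ k →
    (∀ i ∈ S, D * ((rest T S).ncard + 1) ≤ (leavesAt T i).ncard) → Graceful T := by
  obtain ⟨D, hD⟩ := Pool.Agent.TH908.KH.cases_all (k + 1) (by omega)
  refine ⟨D + 384, ?_⟩
  intro V _ T hT S hS2 hSk hL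
  classical
  obtain ⟨r, hr⟩ : ∃ r, (rest T S).ncard = r := ⟨_, rfl⟩
  rw [hr] at hL
  have hVc := Pool.Agent.H115R2.ncard_edge T hT
  -- number of leaves at `i`
  have hleaf : ∀ i, (leavesAt T i).ncard ≤ T.edgeSet.ncard := by
    intro i
    have h1 : (leavesAt T i).ncard < (Set.univ : Set V).ncard := by
      apply Set.ncard_lt_ncard _ (Set.toFinite _)
      rw [Set.ssubset_univ_iff]
      intro e
      have : i ∈ leavesAt T i := by rw [e]; trivial
      exact T.loopless.irrefl i this.1
    rw [Set.ncard_univ, Nat.card_eq_fintype_card] at h1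
    omega
  have hSne : S.Nonempty := by
    rw [← Set.ncard_pos (Set.toFinite _)]
    omega
  have h384 : ∀ i ∈ S, D * (r + 1) + 384 * (r + 1) ≤ (leavesAt T i).ncard := by
    intro i hi
    have := hL i hi
    rwa [add_mul] at this
  have hm : 384 * (r + 1) ≤ T.edgeSet.ncard := by
    obtain ⟨i, hi⟩ := hSne
    have h1 := h384 i hi
    have h2 := hleaf i
    exact ((Nat.le_add_left _ _).trans h1).trans h2
  by_cases h2 : S.ncard = 2
  · obtain ⟨v, w, hvw, rfl⟩ := Set.ncard_eq_two.1 h2
    have hv := (Nat.le_add_left _ _).trans (h384 v (by simp))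
    have hw := (Nat.le_add_left _ _).trans (h384 w (by simp))
    exact two hT hvw hr (by omega) (by omega) (by omega)
  · -- at least three hubs
    obtain ⟨Sf, hSf⟩ : ∃ R, R = Finset.univ.filter (· ∈ S) := ⟨_, rfl⟩
    obtain ⟨R, hR⟩ : ∃ R, R = Finset.univ.filter (· ∈ rest T S) := ⟨_, rfl⟩
    obtain ⟨L, hLd⟩ : ∃ L : V → Finset V, L = fun i => Finset.univ.filter (· ∈ leavesAt T i) :=
      ⟨_, rfl⟩
    have hSm : ∀ x, x ∈ Sf ↔ x ∈ S := by intro x; simp [hSf]
    have hRm : ∀ x, x ∈ R ↔ x ∈ rest T S := by intro x; simp [hR]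
    have hLm : ∀ i x, x ∈ L i ↔ x ∈ leavesAt T i := by intro i x; simp [hLd]
    have cS : Sf.card = S.ncard := by rw [hSf, card_fin]
    have cR : R.card = r := by rw [hR, card_fin, hr]
    have cL : ∀ i, (L i).card = (leavesAt T i).ncard := by intro i; rw [hLd]; exact card_fin _
    have hm2 : 2 ≤ T.edgeSet.ncard := by omega
    have hnl : ∀ i ∈ S, ∀ j, i ∉ leavesAt T j := by
      intro i hi j
      obtain ⟨a, ha⟩ : (leavesAt T i).Nonempty := by
        rw [← Set.ncard_pos (Set.toFinite _)]
        have := h384 i hi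
        omega
      exact not_leaf hT hm2 ha
    have HSp : Pool.Agent.TH908.KH.HS T Sf R L := by
      refine ⟨?_, ?_, ?_⟩
      · intro i _ x hx
        rw [hLm] at hx
        refine ⟨fun hxS => hnl x ((hSm x).1 hxS) i hx, hx.1, fun z hz => uniq hx hz⟩
      · intro x hx
        rw [hRm] at hx
        refine ⟨fun h => hx.1 ((hSm x).1 h), fun i hi h => hx.2 i ((hSm i).1 hi) ((hLm i x).1 h)⟩
      · intro x
        by_cases h1 : x ∈ S
        · exact Or.inl ((hSm x).2 h1)
        by_cases h3 : ∃ i ∈ S, x ∈ leavesAt T i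
        · obtain ⟨i, hi, hx⟩ := h3
          exact Or.inr (Or.inr ⟨i, (hSm i).2 hi, (hLm i x).2 hx⟩)
        · push Not at h3
          exact Or.inr (Or.inl ((hRm x).2 ⟨h1, h3⟩))
    -- the hub with the largest number of leaves
    have hSfne : Sf.Nonempty := by
      obtain ⟨i, hi⟩ := hSne
      exact ⟨i, (hSm i).2 hi⟩
    obtain ⟨v, hvS, hvmax⟩ := Finset.exists_max_image Sf (fun i => (L i).card) hSfne
    have hcard2 : 2 ≤ (Sf.erase v).card := by
      rw [Finset.card_erase_of_mem hvS, cS]
      omega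
    obtain ⟨h, hh, h₂, hh₂, hhh₂⟩ := Finset.one_lt_card.1 (by omega : 1 < (Sf.erase v).card)
    rw [Finset.mem_erase] at hh hh₂
    refine hD V T hT Sf R L HSp (by omega) v h h₂ hvS hh.2 hh₂.2 hh.1.symm hh₂.1.symm hhh₂ ?_ ?_
    · intro i hi
      rw [cR, cL]
      have := h384 i ((hSm i).1 hi)
      omega
    · -- total number of vertices
      have hcov : (Finset.univ : Finset V) ⊆ Sf ∪ R ∪ Sf.biUnion L := by
        intro x _
        rw [Finset.mem_union, Finset.mem_union, Finset.mem_biUnion]
        rcases HSp.cov x with h | h | h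
        · exact Or.inl (Or.inl h)
        · exact Or.inl (Or.inr h)
        · exact Or.inr h
      have hc1 : Fintype.card V ≤ Sf.card + R.card + Sf.card * (L v).card := by
        rw [← Finset.card_univ]
        refine (Finset.card_le_card hcov).trans ((Finset.card_union_le _ _).trans ?_)
        refine Nat.add_le_add (Finset.card_union_le _ _) ?_
        refine Finset.card_biUnion_le.trans ?_
        calc ∑ i ∈ Sf, (L i).card ≤ ∑ _i ∈ Sf, (L v).card := Finset.sum_le_sum hvmax
          _ = Sf.card * (L v).card := by rw [Finset.sum_const, smul_eq_mul]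
      have hLv := h384 v ((hSm v).1 hvS)
      rw [← cL] at hLv
      rw [cR] at hc1
      have h1 : Sf.card ≤ k := by omega
      have h3 : Sf.card * (L v).card ≤ k * (L v).card := Nat.mul_le_mul_right _ h1
      have h4 : 1 ≤ (L v).card := by omega
      have h5 : k ≤ k * (L v).card := Nat.le_mul_of_pos_right _ h4
      have h6 : 2 * (k + 1) * (L v).card = 2 * (k * (L v).card) + 2 * (L v).card := by ring
      rw [h6]
      omega

/-- (1) Let `T` be a finite tree with `m` edges, `v` a vertex and `t` the number of vertices other than `v`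
which are not adjacent to `v`.  If `10^8 (t + 1)^2 log (t + 2) ≤ m`, or if for some `h` all vertices have
distance at most `h` from `v` and `2 ^ h h (4 t + 1) ≤ m`, then `T` is graceful and `γ(T) = |E(T)|`.
(2) Let `T` be a finite tree, `v ≠ w` vertices and `r` the number of vertices other than `v`, `w` and the
leaves adjacent to `v` or `w`.  If each of `v` and `w` is adjacent to at least `max r 1` leaves and `T` has at
least `128 (r + 3)` edges, then `T` is graceful and `γ(T) = |E(T)|`.
(3) For every `k` there is `D` such that the following holds for every finite tree `T` and every set `S` of at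
least `2` and at most `k` vertices.  Let `r` be the number of vertices which are neither in `S` nor leaves
adjacent to vertices of `S`.  If every vertex of `S` is adjacent to at least `D (r + 1)` leaves, then `T` is
graceful and `γ(T) = |E(T)|`. -/
theorem result :
    (∀ (V : Type) [Fintype V] (T : SimpleGraph V), T.IsTree → ∀ (v : V) (t : ℕ),
      {x : V | x ≠ v ∧ ¬ T.Adj v x}.ncard = t →
      ((10 : ℝ) ^ 8 * ((t : ℝ) + 1) ^ 2 * Real.log ((t : ℝ) + 2) ≤ (T.edgeSet.ncard : ℝ) ∨
        ∃ h : ℕ, (∀ x, T.dist v x ≤ h) ∧ 2 ^ h * h * (4 * t + 1) ≤ T.edgeSet.ncard) →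
      Graceful T ∧ T.edgeSet.ncard ∈ gracefulSizes T ∧ gamma T = T.edgeSet.ncard) ∧
    (∀ (V : Type) [Fintype V] (T : SimpleGraph V), T.IsTree → ∀ v w : V, v ≠ w →
      max (rest T {v, w}).ncard 1 ≤ (leavesAt T v).ncard →
      max (rest T {v, w}).ncard 1 ≤ (leavesAt T w).ncard →
      128 * ((rest T {v, w}).ncard + 3) ≤ T.edgeSet.ncard →
      Graceful T ∧ T.edgeSet.ncard ∈ gracefulSizes T ∧ gamma T = T.edgeSet.ncard) ∧
    ∀ k : ℕ, ∃ D : ℕ, ∀ (V : Type) [Fintype V] (T : SimpleGraph V), T.IsTree →
      ∀ S : Set V, 2 ≤ S.ncard → S.ncard ≤ k →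
      (∀ i ∈ S, D * ((rest T S).ncard + 1) ≤ (leavesAt T i).ncard) →
      Graceful T ∧ T.edgeSet.ncard ∈ gracefulSizes T ∧ gamma T = T.edgeSet.ncard := by
  have key : ∀ (V : Type) [Fintype V] (T : SimpleGraph V), T.IsTree → Graceful T →
      Graceful T ∧ T.edgeSet.ncard ∈ gracefulSizes T ∧ gamma T = T.edgeSet.ncard := by
    intro V _ T hT hg
    have hm : T.edgeSet.ncard ∈ gracefulSizes T :=
      ⟨V, inferInstance, T, hT, hg, SimpleGraph.IsContained.refl T, rfl⟩
    exact ⟨hg, hm, le_antisymm (Nat.sInf_le hm) (le_of_mem (Nat.sInf_mem ⟨_, hm⟩))⟩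
  refine ⟨?_, ?_, ?_⟩
  · intro V _ T hT v t ht hm
    classical
    refine key V T hT ?_
    rcases hm with hm | ⟨h, hh, hm⟩
    · exact Pool.Agent.H276R3.GE.main T hT v t ht.le hm
    · exact Pool.Agent.H276R3.graceful_of_height T hT v h t hh ht.le hm
  · intro V _ T hT v w hvw hv hw hm
    exact key V T hT (two hT hvw rfl hv hw hm)
  · intro k
    obtain ⟨D, hD⟩ := hubs k
    refine ⟨D, ?_⟩
    intro V _ T hT S h1 h2 h3
    exact key V T hT (hD V T hT S h1 h2 h3)

end Pool.Agent.Results.MP_128071_co.DominatingHubs
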