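import Pool.Agent.H336.GW.Main
import Pool.Agent.H336.GW.Path

/-!
# The smallest graceful tree containing a tree with even numbers of leaves: `γ(T) = |E(T)|`

Let `T'` be the tree of the non-leaves of `T`.  If `T'` has an `α`-labelling (for example if `T'` is a
caterpillar, that is, if `T` is a lobster), every non-leaf has a positive even number of leaves, and in each
colour class of `T` at least two thirds of the vertices, up to a constant, are leaves, then `T` is graceful, so it
is itself the smallest graceful tree containing it.  Method (`Pool/Agent/H336/GW`, never handed in).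
-/

set_option autoImplicit false

namespace Pool.Agent.Results.MP_128071_co.EvenLeaves

/-- The non-leaves of `T`: the vertices of degree at least two. -/
def nonLeaves {V : Type} (T : SimpleGraph V) : Set V := {x | 2 ≤ (T.neighborSet x).ncard}

/-- A tree with `m` edges is graceful if there is an injective map `f` of the vertices to
`{0, 1, …, m}` such that the edge labels `|f u - f v|` are pairwise distinct. -/
def Graceful {V : Type} (T : SimpleGraph V) : Prop :=
  ∃ f : V → ℕ, Function.Injective f ∧ (∀ v, f v ≤ T.edgeSet.ncard) ∧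
    ∀ u v u' v', T.Adj u v → T.Adj u' v' →
      Int.natAbs ((f u : ℤ) - (f v : ℤ)) = Int.natAbs ((f u' : ℤ) - (f v' : ℤ)) →
      s(u, v) = s(u', v')

/-- An `α`-labelling of a tree: a graceful labelling such that for some `θ` every edge has exactly one
end with a label `< θ`. -/
def HasAlpha {V : Type} (T : SimpleGraph V) : Prop :=
  ∃ (f : V → ℕ) (θ : ℕ), Function.Injective f ∧ (∀ v, f v ≤ T.edgeSet.ncard) ∧
    (∀ u v u' v', T.Adj u v → T.Adj u' v' →
      Int.natAbs ((f u : ℤ) - (f v : ℤ)) = Int.natAbs ((f u' : ℤ) - (f v' : ℤ)) →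
      s(u, v) = s(u', v')) ∧
    ∀ u v, T.Adj u v → (f u < θ ↔ ¬ f v < θ)

/-- The numbers of edges of the finite graceful trees which have a subgraph isomorphic to `T`. -/
def gracefulSizes {V : Type} (T : SimpleGraph V) : Set ℕ :=
  {k | ∃ (W : Type) (_ : Fintype W) (T' : SimpleGraph W),
    T'.IsTree ∧ Graceful T' ∧ T.IsContained T' ∧ T'.edgeSet.ncard = k}

/-- `γ(T)`: the least number of edges of a graceful tree which has a subgraph isomorphic to `T`. -/
noncomputable def gamma {V : Type} (T : SimpleGraph V) : ℕ := sInf (gracefulSizes T)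

theorem le_of_mem {V : Type} {T : SimpleGraph V} {k : ℕ}
    (hk : k ∈ gracefulSizes T) : T.edgeSet.ncard ≤ k := by
  classical
  obtain ⟨W, _, T', _, _, ⟨φ⟩, rfl⟩ := hk
  have hinj : Function.Injective φ := φ.injective
  have h1 : Sym2.map φ '' T.edgeSet ⊆ T'.edgeSet := by
    rintro _ ⟨e, he, rfl⟩
    induction e using Sym2.ind with
    | _ x y =>
      rw [Sym2.map_mk, SimpleGraph.mem_edgeSet]
      exact φ.toHom.map_adj ((SimpleGraph.mem_edgeSet T).1 he)
  calc T.edgeSet.ncard = (Sym2.map φ '' T.edgeSet).ncard :=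
        (Set.ncard_image_of_injective _ (Sym2.map.injective hinj)).symm
    _ ≤ T'.edgeSet.ncard := Set.ncard_le_ncard h1 (Set.toFinite _)

theorem of_graceful {V : Type} [Fintype V] {T : SimpleGraph V} (hT : T.IsTree) (hg : Graceful T) :
    Graceful T ∧ T.edgeSet.ncard ∈ gracefulSizes T ∧ gamma T = T.edgeSet.ncard := by
  have hm : T.edgeSet.ncard ∈ gracefulSizes T :=
    ⟨V, inferInstance, T, hT, hg, SimpleGraph.IsContained.refl T, rfl⟩
  exact ⟨hg, hm, le_antisymm (Nat.sInf_le hm) (le_of_mem (Nat.sInf_mem ⟨_, hm⟩))⟩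

/-- the two colourings of a connected graph -/
theorem two_col {W : Type} {G : SimpleGraph W} (hG : G.Connected) (p q : W → Prop)
    (hp : ∀ u v, G.Adj u v → (p u ↔ ¬ p v)) (hq : ∀ u v, G.Adj u v → (q u ↔ ¬ q v)) :
    (∀ x, p x ↔ q x) ∨ (∀ x, p x ↔ ¬ q x) := by
  classical
  have key : ∀ x y, G.Reachable x y → ((p x ↔ q x) ↔ (p y ↔ q y)) := by
    intro x y h
    obtain ⟨w⟩ := h
    induction w with
    | nil => exact Iff.rfl
    | cons hadj _ ih =>
      rw [← ih]
      have h1 := hp _ _ hadj
      have h2 := hq _ _ hadj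
      tauto
  obtain ⟨x0⟩ := hG.nonempty
  by_cases h : p x0 ↔ q x0
  · left
    intro x
    exact (key x0 x (hG.preconnected x0 x)).1 h
  · right
    intro x
    have h1 := key x0 x (hG.preconnected x0 x)
    tauto

theorem alpha_all {W : Type} {G : SimpleGraph W} (hG : G.Connected) (hα : HasAlpha G)
    (col : W → Bool) (b : Bool) (hcol : ∀ u v, G.Adj u v → col u ≠ col v) :
    ∃ (θ : ℕ) (f : W → ℕ), Function.Injective f ∧
      (∀ x, f x ≤ G.edgeSet.ncard) ∧ (∀ x, col x = b ↔ f x < θ) ∧
      ∀ u v u' v', G.Adj u v → G.Adj u' v' →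
        Int.natAbs ((f u : ℤ) - (f v : ℤ)) = Int.natAbs ((f u' : ℤ) - (f v' : ℤ)) →
        s(u, v) = s(u', v') := by
  obtain ⟨f, θ, h1, h2, h3, h4⟩ := hα
  rcases two_col hG (fun x => col x = b) (fun x => f x < θ) (fun u v h => by
    have h5 := hcol u v h
    cases hcu : col u <;> cases hcv : col v <;> cases b <;> simp_all) h4 with h | h
  · exact ⟨θ, f, h1, h2, h, h3⟩
  · refine ⟨G.edgeSet.ncard + 1 - θ, fun x => G.edgeSet.ncard - f x, ?_, ?_, ?_, ?_⟩
    · intro x y hxy
      have hx := h2 x
      have hy := h2 y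
      apply h1
      simp only at hxy
      omega
    · intro x; exact Nat.sub_le _ _
    · intro x
      rw [h x]
      have hx := h2 x
      simp only
      constructor
      · intro h5; omega
      · intro h5; omega
    · intro u v u' v' ha ha' he
      apply h3 u v u' v' ha ha'
      have e1 := h2 u
      have e2 := h2 v
      have e3 := h2 u'
      have e4 := h2 v'
      simp only at he
      omega

/-- Let `T` be a finite tree in which two non-leaves are adjacent, such that every non-leaf has a positive even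
number of leaf neighbours and that, for every proper colouring of `T` with two colours and every colour `b`,
`2 * #(non-leaves of colour b) ≤ #(leaves of colour b) + 2`.  Let the subtree `T'` induced by the non-leaves
have an `α`-labelling, or let the non-leaves of `T'` induce a path with `n ≥ 0` vertices (that is, `T` is a
lobster).  Then `T` is graceful and `γ(T) = |E(T)|`, the least possible value. -/
theorem result (V : Type) [Fintype V] (T : SimpleGraph V) (hT : T.IsTree)
    (h2 : ∃ x y, T.Adj x y ∧ x ∈ nonLeaves T ∧ y ∈ nonLeaves T)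
    (heven : ∀ x ∈ nonLeaves T, 0 < {y | T.Adj x y ∧ y ∉ nonLeaves T}.ncard ∧
      Even {y | T.Adj x y ∧ y ∉ nonLeaves T}.ncard)
    (hbal : ∀ c : V → Bool, (∀ u v, T.Adj u v → c u ≠ c v) → ∀ b,
      2 * {x | x ∈ nonLeaves T ∧ c x = b}.ncard ≤ {y | y ∉ nonLeaves T ∧ c y = b}.ncard + 2)
    (hα : HasAlpha (T.induce (nonLeaves T)) ∨
      ∃ n : ℕ, Nonempty ((T.induce (nonLeaves T)).induce (nonLeaves (T.induce (nonLeaves T))) ≃g
        SimpleGraph.pathGraph n)) :
    Graceful T ∧ T.edgeSet.ncard ∈ gracefulSizes T ∧ gamma T = T.edgeSet.ncard := by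
  classical
  refine of_graceful hT ?_
  have htree : (T.induce (nonLeaves T)).IsTree := by
    obtain ⟨x, _, _, hx, _⟩ := h2
    exact Pool.Agent.H336.GW.induce_tree hT ⟨x, hx⟩
  refine Pool.Agent.H336.GW.even_leaves hT h2 ?_ heven hbal
  intro col b hcol
  rcases hα with hα | ⟨n, ⟨e⟩⟩
  · exact alpha_all htree.1 hα col b hcol
  · refine Pool.Agent.H336.GW.exists_alpha htree ?_ n e col b hcol
    obtain ⟨x, y, hxy, hx, hy⟩ := h2
    refine (Set.ncard_pos (Set.toFinite _)).2 ?_
    exact ⟨s(⟨x, hx⟩, ⟨y, hy⟩), hxy⟩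

end Pool.Agent.Results.MP_128071_co.EvenLeaves
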