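import Pool.Agent.H115R3.Final

/-!
# The smallest graceful tree containing a tree with few non-leaves: `γ(T) = |E(T)|`

Every finite tree with `k` vertices of degree at least two and at least `10^28 k^46` vertices is graceful, so
it is itself the smallest graceful tree containing it.  There is no condition on the shape of the tree of the
non-leaves and on the distribution of the leaves over the non-leaves.
-/

set_option autoImplicit false

namespace Pool.Agent.Results.MP_128071_co.FewNonLeaves

/-- A graph with `m` edges is graceful if there is an injective map `f` of the vertices to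
`{0, 1, …, m}` such that the edge labels `|f u - f v|` are exactly `1, …, m`. -/
def Graceful {V : Type} (T : SimpleGraph V) : Prop :=
  ∃ f : V → ℕ, Function.Injective f ∧ (∀ v, f v ≤ T.edgeSet.ncard) ∧
    {d : ℕ | ∃ u v : V, T.Adj u v ∧ d = Int.natAbs ((f u : ℤ) - (f v : ℤ))} =
      Set.Icc 1 T.edgeSet.ncard

/-- The numbers of edges of the finite graceful trees which have a subgraph isomorphic to `T`. -/
def gracefulSizes {V : Type} (T : SimpleGraph V) : Set ℕ :=
  {k | ∃ (W : Type) (_ : Fintype W) (T' : SimpleGraph W),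
    T'.IsTree ∧ Graceful T' ∧ T.IsContained T' ∧ T'.edgeSet.ncard = k}

/-- `γ(T)`: the least number of edges of a graceful tree which has a subgraph isomorphic to `T`. -/
noncomputable def gamma {V : Type} (T : SimpleGraph V) : ℕ := sInf (gracefulSizes T)

theorem le_of_mem {V : Type} {T : SimpleGraph V} {k : ℕ}
    (hk : k ∈ gracefulSizes T) : T.edgeSet.ncard ≤ k := by
  classical
  obtain ⟨W, _, T', _, _, ⟨φ⟩, rfl⟩ := hk
  have hinj : Function.Injective φ := φ.injective
  have h1 : Sym2.map φ '' T.edgeSet ⊆ T'.edgeSet := by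
    rintro _ ⟨e, he, rfl⟩
    induction e using Sym2.ind with
    | _ x y =>
      rw [Sym2.map_mk, SimpleGraph.mem_edgeSet]
      exact φ.toHom.map_adj ((SimpleGraph.mem_edgeSet T).1 he)
  calc T.edgeSet.ncard = (Sym2.map φ '' T.edgeSet).ncard :=
        (Set.ncard_image_of_injective _ (Sym2.map.injective hinj)).symm
    _ ≤ T'.edgeSet.ncard := Set.ncard_le_ncard h1 (Set.toFinite _)

theorem bound (k : ℕ) :
    261 * k ^ 3 * (k * (226 * (1921 * k ^ 6) ^ 7 + 1)) ≤ 10 ^ 28 * k ^ 46 := by
  rcases Nat.eq_zero_or_pos k with rfl | hk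
  · simp
  · have h1 : k ^ 4 ≤ k ^ 46 := Nat.pow_le_pow_right hk (by norm_num)
    have h2 : 261 * k ^ 3 * (k * (226 * (1921 * k ^ 6) ^ 7 + 1)) =
        261 * 226 * 1921 ^ 7 * k ^ 46 + 261 * k ^ 4 := by ring
    rw [h2]
    have h3 : 261 * 226 * 1921 ^ 7 + 261 ≤ 10 ^ 28 := by norm_num
    calc 261 * 226 * 1921 ^ 7 * k ^ 46 + 261 * k ^ 4
        ≤ 261 * 226 * 1921 ^ 7 * k ^ 46 + 261 * k ^ 46 :=
          Nat.add_le_add_left (Nat.mul_le_mul_left _ h1) _
      _ = (261 * 226 * 1921 ^ 7 + 261) * k ^ 46 := by ring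
      _ ≤ 10 ^ 28 * k ^ 46 := Nat.mul_le_mul_right _ h3

/-- Let `T` be a finite tree with `k` non-leaves (vertices of degree at least two) and with at least
`10^28 k^46` vertices.  Then `T` is graceful and `γ(T) = |E(T)|`, the least possible value: `T` itself is the
smallest graceful tree containing `T`. -/
theorem result (V : Type) [Fintype V] (T : SimpleGraph V) (hT : T.IsTree)
    (h : 10 ^ 28 * {x : V | 2 ≤ (T.neighborSet x).ncard}.ncard ^ 46 ≤ Fintype.card V) :
    Graceful T ∧ T.edgeSet.ncard ∈ gracefulSizes T ∧ gamma T = T.edgeSet.ncard := by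
  classical
  have hg : Graceful T := by
    have hI : ∀ w, w ∈ Finset.univ.filter (fun x => 2 ≤ (T.neighborSet x).ncard) ↔
        2 ≤ (T.neighborSet w).ncard := by
      intro w
      simp
    have hk : (Finset.univ.filter (fun x => 2 ≤ (T.neighborSet x).ncard)).card =
        {x : V | 2 ≤ (T.neighborSet x).ncard}.ncard := by
      rw [← Set.ncard_coe_finset]
      congr 1
      ext x
      simp
    exact Pool.Agent.H115R3.graceful_of_few hT hI hk rfl rfl rfl ((bound _).trans h)
  have hm : T.edgeSet.ncard ∈ gracefulSizes T :=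
    ⟨V, inferInstance, T, hT, hg, SimpleGraph.IsContained.refl T, rfl⟩
  exact ⟨hg, hm, le_antisymm (Nat.sInf_le hm) (le_of_mem (Nat.sInf_mem ⟨_, hm⟩))⟩

end Pool.Agent.Results.MP_128071_co.FewNonLeaves
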