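import Pool.Agent.W116.GT.Fin

/-!
# The smallest graceful tree containing a given tree: `γ(T) = |E(T)|` for large trees with a two-sided hub

Let `ε > 0`.  If `T` is a sufficiently large tree with `m` edges and a vertex `v` which is adjacent to at
least `ε m` leaves and to at least `ε m` vertices which are not leaves, then `T` is graceful, so `T` itself
is the smallest graceful tree containing `T`.  The rest of `T` is arbitrary: no restriction on the number
or the position of the other leaves, on the degrees or on the diameter.

The proof is the development `Pool.Agent.W116.GT` of the starting files (tasks of several helpers), which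
has not been handed in.
-/

set_option autoImplicit false

namespace Pool.Agent.Results.MP_128071_co.HubTrees

/-- A graph with `m` edges is graceful if there is an injective map `f` of the vertices to
`{0, 1, …, m}` such that the edge labels `|f u - f v|` are exactly `1, …, m`. -/
def Graceful {V : Type} (T : SimpleGraph V) : Prop :=
  ∃ f : V → ℕ, Function.Injective f ∧ (∀ v, f v ≤ T.edgeSet.ncard) ∧
    {d : ℕ | ∃ u v : V, T.Adj u v ∧ d = Int.natAbs ((f u : ℤ) - (f v : ℤ))} =
      Set.Icc 1 T.edgeSet.ncard

/-- The numbers of edges of the finite graceful trees which have a subgraph isomorphic to `T`. -/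
def gracefulSizes {V : Type} (T : SimpleGraph V) : Set ℕ :=
  {k | ∃ (W : Type) (_ : Fintype W) (T' : SimpleGraph W),
    T'.IsTree ∧ Graceful T' ∧ T.IsContained T' ∧ T'.edgeSet.ncard = k}

/-- `γ(T)`: the least number of edges of a graceful tree which has a subgraph isomorphic to `T`. -/
noncomputable def gamma {V : Type} (T : SimpleGraph V) : ℕ := sInf (gracefulSizes T)

/-- The number of neighbours of `v` which are leaves. -/
noncomputable def leafNeighbours {V : Type} (T : SimpleGraph V) (v : V) : ℕ :=
  {w : V | T.Adj v w ∧ (T.neighborSet w).ncard = 1}.ncard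

/-- The number of neighbours of `v` which are not leaves. -/
noncomputable def innerNeighbours {V : Type} (T : SimpleGraph V) (v : V) : ℕ :=
  {w : V | T.Adj v w ∧ 2 ≤ (T.neighborSet w).ncard}.ncard

theorem le_of_mem {V : Type} {T : SimpleGraph V} {k : ℕ}
    (hk : k ∈ gracefulSizes T) : T.edgeSet.ncard ≤ k := by
  classical
  obtain ⟨W, _, T', _, _, ⟨φ⟩, rfl⟩ := hk
  have hinj : Function.Injective φ := φ.injective
  have h1 : Sym2.map φ '' T.edgeSet ⊆ T'.edgeSet := by
    rintro _ ⟨e, he, rfl⟩
    induction e using Sym2.ind with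
    | _ x y =>
      rw [Sym2.map_mk, SimpleGraph.mem_edgeSet]
      exact φ.toHom.map_adj ((SimpleGraph.mem_edgeSet T).1 he)
  calc T.edgeSet.ncard = (Sym2.map φ '' T.edgeSet).ncard :=
        (Set.ncard_image_of_injective _ (Sym2.map.injective hinj)).symm
    _ ≤ T'.edgeSet.ncard := Set.ncard_le_ncard h1 (Set.toFinite _)

/-- For every `ε > 0` there is `m₀` such that every finite tree `T` with `m ≥ m₀` edges and with a vertex
`v` adjacent to at least `ε m` leaves and to at least `ε m` non-leaves is graceful, and `γ(T) = |E(T)|`,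
the least possible value. -/
theorem result (ε : ℝ) (hε : 0 < ε) : ∃ m₀ : ℕ, ∀ (V : Type) [Fintype V] (T : SimpleGraph V), T.IsTree →
    m₀ ≤ T.edgeSet.ncard → ∀ v : V,
    ε * (T.edgeSet.ncard : ℝ) ≤ leafNeighbours T v → ε * (T.edgeSet.ncard : ℝ) ≤ innerNeighbours T v →
    Graceful T ∧ T.edgeSet.ncard ∈ gracefulSizes T ∧ gamma T = T.edgeSet.ncard := by
  obtain ⟨m₀, h⟩ := Pool.Agent.W116.GT.main ε hε
  refine ⟨m₀, fun V _ T hT hm v h1 h2 => ?_⟩
  have hg : Graceful T := h V T hT hm v h1 h2
  have hmem : T.edgeSet.ncard ∈ gracefulSizes T :=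
    ⟨V, inferInstance, T, hT, hg, SimpleGraph.IsContained.refl T, rfl⟩
  exact ⟨hg, hmem, le_antisymm (Nat.sInf_le hmem) (le_of_mem (Nat.sInf_mem ⟨_, hmem⟩))⟩

end Pool.Agent.Results.MP_128071_co.HubTrees
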